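import Mathlib

set_option autoImplicit false

/-!
The algebraic core: three commuting star-endomorphisms that compress to completely positive maps
given by lowering operators force an exchange relation.
-/

namespace Pool.Agent.NH65.CP

open Matrix

section sandwich

variable {n : Type*} [Fintype n] [DecidableEq n]

/-- Matrix units. -/
def E (r s : n) : Matrix n n ℂ := Matrix.single r s 1

theorem star_E (r s : n) : star (E r s) = E s r := by
  simp [E, Matrix.star_eq_conjTranspose]

theorem sandwich (X : Matrix n n ℂ) (o q : n) :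
    ∑ r, E r o * X * E q r = (X o q) • (1 : Matrix n n ℂ) := by
  ext i j
  simp only [E, Matrix.sum_apply, Matrix.smul_apply, Matrix.one_apply, smul_eq_mul]
  rw [Finset.sum_eq_single i]
  · rw [Matrix.mul_apply, Finset.sum_eq_single q]
    · rw [Matrix.mul_apply, Finset.sum_eq_single o]
      · simp [Matrix.single_apply]
      · intro b _ hb
        simp [Matrix.single_apply, Ne.symm hb]
      · simp
    · intro b _ hb
      simp [Matrix.single_apply, Ne.symm hb]
    · simp
  · intro b _ hb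
    rw [Matrix.mul_apply]
    apply Finset.sum_eq_zero
    intro k _
    rw [Matrix.mul_apply, Finset.sum_eq_zero, zero_mul]
    intro l _
    simp [Matrix.single_apply, hb]
  · simp

end sandwich

section single

variable {n κ : Type*} [Fintype n] [DecidableEq n] [Fintype κ] [DecidableEq κ]
variable {B : Type*} [Ring B] [StarRing B] [Algebra ℂ B]

/-- The element implementing the `k`-th Kraus operator. -/
noncomputable def tt (φ : Matrix n n ℂ →⋆ₙₐ[ℂ] B) (θ : B →⋆ₙₐ[ℂ] B) (o : n) (q : κ → n) (k : κ) : B :=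
  ∑ r, θ (φ (E r o)) * φ (E (q k) r)

variable (φ : Matrix n n ℂ →⋆ₙₐ[ℂ] B) (θ : B →⋆ₙₐ[ℂ] B)
  (S : κ → Matrix n n ℂ) (o : n) (q : κ → n)

theorem phi_one_mul (b : Matrix n n ℂ) : φ 1 * φ b = φ b := by
  rw [← map_mul, one_mul]

theorem phi_mul_one (b : Matrix n n ℂ) : φ b * φ 1 = φ b := by
  rw [← map_mul, mul_one]

theorem ip (hT : ∀ a, φ 1 * θ (φ a) * φ 1 = φ (∑ k, star (S k) * a * S k))
    (a b a' b' : Matrix n n ℂ) :
    star (θ (φ a) * φ b) * (θ (φ a') * φ b') =
      φ (star b * (∑ k, star (S k) * (star a * a') * S k) * b') := by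
  rw [map_mul, map_mul, ← hT, star_mul, ← map_star, ← map_star, ← map_star, map_mul, map_mul]
  have h1 : φ (star b) = φ (star b) * φ 1 := (phi_mul_one φ _).symm
  have h2 : φ b' = φ 1 * φ b' := (phi_one_mul φ _).symm
  calc φ (star b) * θ (φ (star a)) * (θ (φ a') * φ b')
      = (φ (star b) * φ 1) * θ (φ (star a)) * (θ (φ a') * (φ 1 * φ b')) := by rw [← h1, ← h2]
    _ = _ := by simp only [mul_assoc]

theorem tt_star_mul (hT : ∀ a, φ 1 * θ (φ a) * φ 1 = φ (∑ k, star (S k) * a * S k))
    (hq : ∀ k l, S k o (q l) = if k = l then 1 else 0) (k : κ) (a b : Matrix n n ℂ) :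
    star (θ (φ a) * φ b) * tt φ θ o q k = φ (star b * star (S k) * star a) := by
  unfold tt
  rw [Finset.mul_sum]
  simp only [ip φ θ S hT]
  rw [← map_sum]
  congr 1
  have : ∀ r, star b * (∑ l, star (S l) * (star a * E r o) * S l) * E (q k) r =
      ∑ l, star b * star (S l) * star a * (E r o * S l * E (q k) r) := by
    intro r
    rw [Finset.mul_sum, Finset.sum_mul]
    apply Finset.sum_congr rfl
    intro l _
    simp only [mul_assoc]
  simp only [this]
  rw [Finset.sum_comm]
  simp only [← Finset.mul_sum, sandwich, hq]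
  simp

theorem star_tt_mul_tt (hT : ∀ a, φ 1 * θ (φ a) * φ 1 = φ (∑ k, star (S k) * a * S k))
    (hq : ∀ k l, S k o (q l) = if k = l then 1 else 0) (k l : κ) :
    star (tt φ θ o q k) * tt φ θ o q l = if k = l then φ 1 else 0 := by
  conv_lhs => rw [tt, star_sum, Finset.sum_mul]
  simp only [tt_star_mul φ θ S o q hT hq, star_E]
  rw [← map_sum]
  have : ∀ r, E r (q k) * star (S l) * E o r = star (E r o * S l * E (q k) r) := by
    intro r
    rw [star_mul, star_mul, star_E, star_E, mul_assoc]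
  simp only [this]
  rw [← star_sum, sandwich, hq]
  by_cases h : k = l
  · subst h; simp
  · simp [h, Ne.symm h]

/-- Expansion of an element of the corner module in terms of the `tt k`. -/
theorem expand (hprop : ∀ x : B, star x * x = 0 → x = 0)
    (hT : ∀ a, φ 1 * θ (φ a) * φ 1 = φ (∑ k, star (S k) * a * S k))
    (hq : ∀ k l, S k o (q l) = if k = l then 1 else 0) (a b : Matrix n n ℂ) :
    θ (φ a) * φ b = ∑ k, tt φ θ o q k * φ (a * S k * b) := by
  have hX : ∀ k, star (θ (φ a) * φ b) * (tt φ θ o q k * φ (a * S k * b)) =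
      φ (star (a * S k * b) * (a * S k * b)) := by
    intro k
    rw [← mul_assoc, tt_star_mul φ θ S o q hT hq, ← map_mul]
    congr 1
    simp only [star_mul, mul_assoc]
  have hX' : ∀ k, star (tt φ θ o q k * φ (a * S k * b)) * (θ (φ a) * φ b) =
      φ (star (a * S k * b) * (a * S k * b)) := by
    intro k
    have := congrArg star (hX k)
    rw [star_mul, star_star, ← map_star] at this
    rw [this]
    simp
  have hYY : ∀ k l, star (tt φ θ o q k * φ (a * S k * b)) * (tt φ θ o q l * φ (a * S l * b)) =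
      if k = l then φ (star (a * S k * b) * (a * S k * b)) else 0 := by
    intro k l
    rw [star_mul, ← map_star]
    calc φ (star (a * S k * b)) * star (tt φ θ o q k) * (tt φ θ o q l * φ (a * S l * b))
        = φ (star (a * S k * b)) * (star (tt φ θ o q k) * tt φ θ o q l) * φ (a * S l * b) := by
          simp only [mul_assoc]
      _ = _ := by
          rw [star_tt_mul_tt φ θ S o q hT hq]
          by_cases h : k = l
          · subst h
            simp only [if_true]
            rw [phi_mul_one, ← map_mul]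
          · simp [h]
  have h0 : star (θ (φ a) * φ b) * (θ (φ a) * φ b) = ∑ k, φ (star (a * S k * b) * (a * S k * b)) := by
    rw [ip φ θ S hT, ← map_sum]
    congr 1
    rw [Finset.mul_sum, Finset.sum_mul]
    apply Finset.sum_congr rfl
    intro l _
    simp only [star_mul, mul_assoc]
  rw [← sub_eq_zero]
  apply hprop
  rw [star_sub, sub_mul, mul_sub, mul_sub, h0, Finset.mul_sum, star_sum, Finset.sum_mul,
    Finset.sum_mul]
  simp only [hX, hX']
  have : ∀ k, star (tt φ θ o q k * φ (a * S k * b)) * ∑ l, tt φ θ o q l * φ (a * S l * b) =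
      φ (star (a * S k * b) * (a * S k * b)) := by
    intro k
    rw [Finset.mul_sum]
    simp only [hYY]
    simp
  simp only [this]
  simp

theorem tt_mul_one (k : κ) : tt φ θ o q k * φ 1 = tt φ θ o q k := by
  unfold tt
  rw [Finset.sum_mul]
  apply Finset.sum_congr rfl
  intro r _
  rw [mul_assoc, phi_mul_one]

theorem theta_one_tt (k : κ) : θ (φ 1) * tt φ θ o q k = tt φ θ o q k := by
  unfold tt
  rw [Finset.mul_sum]
  apply Finset.sum_congr rfl
  intro r _
  rw [← mul_assoc, ← map_mul, phi_one_mul]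

theorem theta_one_one (hprop : ∀ x : B, star x * x = 0 → x = 0)
    (hT : ∀ a, φ 1 * θ (φ a) * φ 1 = φ (∑ k, star (S k) * a * S k))
    (hS : ∑ k, star (S k) * S k = 1) : θ (φ 1) * φ 1 = φ 1 := by
  rw [← sub_eq_zero]
  apply hprop
  have h1 : star (φ 1) = φ 1 := by rw [← map_star, star_one]
  have h2 : star (θ (φ 1)) = θ (φ 1) := by rw [← map_star, h1]
  have h3 : φ 1 * θ (φ 1) * φ 1 = φ 1 := by
    rw [hT]; simp only [mul_one, hS]
  have h4 : θ (φ 1) * θ (φ 1) = θ (φ 1) := by rw [← map_mul, phi_one_mul]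
  have h5 : φ 1 * φ 1 = φ 1 := phi_one_mul φ 1
  rw [star_sub, star_mul, h1, h2, sub_mul, mul_sub, mul_sub]
  have e1 : φ 1 * θ (φ 1) * (θ (φ 1) * φ 1) = φ 1 := by
    rw [mul_assoc, ← mul_assoc (θ (φ 1)), h4, ← mul_assoc, h3]
  have e2 : φ 1 * (θ (φ 1) * φ 1) = φ 1 := by rw [← mul_assoc, h3]
  rw [e1, e2, h3, h5]
  simp

end single

section double

variable {n κ κ' : Type*} [Fintype n] [DecidableEq n] [Fintype κ] [DecidableEq κ]
  [Fintype κ'] [DecidableEq κ']
variable {B : Type*} [Ring B] [StarRing B] [Algebra ℂ B]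
variable (φ : Matrix n n ℂ →⋆ₙₐ[ℂ] B) (θ θ' : B →⋆ₙₐ[ℂ] B)
  (S : κ → Matrix n n ℂ) (S' : κ' → Matrix n n ℂ) (o : n) (q : κ → n) (q' : κ' → n)

/-- Double expansion. -/
theorem expand₂ (hprop : ∀ x : B, star x * x = 0 → x = 0)
    (hT : ∀ a, φ 1 * θ (φ a) * φ 1 = φ (∑ k, star (S k) * a * S k))
    (hq : ∀ k l, S k o (q l) = if k = l then 1 else 0)
    (hT' : ∀ a, φ 1 * θ' (φ a) * φ 1 = φ (∑ k, star (S' k) * a * S' k))
    (hS' : ∑ k, star (S' k) * S' k = 1)
    (hq' : ∀ k l, S' k o (q' l) = if k = l then 1 else 0) (a b : Matrix n n ℂ) :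
    θ' (θ (φ a)) * φ b =
      ∑ k, ∑ l, θ' (tt φ θ o q k) * tt φ θ' o q' l * φ (a * S k * S' l * b) := by
  have h1 : θ' (θ (φ a)) * φ b = θ' (θ (φ a) * φ 1) * φ b := by
    rw [map_mul, mul_assoc]
    congr 1
    calc φ b = φ 1 * φ b := (phi_one_mul φ b).symm
      _ = θ' (φ 1) * φ 1 * φ b := by rw [theta_one_one φ θ' S' hprop hT' hS']
      _ = _ := by rw [mul_assoc, phi_one_mul]
  rw [h1, expand φ θ S o q hprop hT hq, map_sum, Finset.sum_mul]
  apply Finset.sum_congr rfl
  intro k _
  rw [map_mul, mul_assoc, expand φ θ' S' o q' hprop hT' hq', Finset.mul_sum]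
  apply Finset.sum_congr rfl
  intro l _
  simp only [mul_assoc, mul_one]

theorem key₂ (hprop : ∀ x : B, star x * x = 0 → x = 0)
    (hT : ∀ a, φ 1 * θ (φ a) * φ 1 = φ (∑ k, star (S k) * a * S k))
    (hq : ∀ k l, S k o (q l) = if k = l then 1 else 0)
    (hT' : ∀ a, φ 1 * θ' (φ a) * φ 1 = φ (∑ k, star (S' k) * a * S' k))
    (hS' : ∑ k, star (S' k) * S' k = 1)
    (hq' : ∀ k l, S' k o (q' l) = if k = l then 1 else 0) (z : n) :
    ∑ r, θ' (θ (φ (E r o))) * φ (E z r) =
      ∑ k, ∑ l, ((S k * S' l) o z) • (θ' (tt φ θ o q k) * tt φ θ' o q' l) := by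
  simp only [expand₂ φ θ θ' S S' o q q' hprop hT hq hT' hS' hq']
  rw [Finset.sum_comm]
  apply Finset.sum_congr rfl
  intro k _
  rw [Finset.sum_comm]
  apply Finset.sum_congr rfl
  intro l _
  rw [← Finset.mul_sum, ← map_sum]
  have : ∑ r, E r o * S k * S' l * E z r = ((S k * S' l) o z) • (1 : Matrix n n ℂ) := by
    rw [← sandwich]
    simp only [mul_assoc]
  rw [this, map_smul, mul_smul_comm, mul_assoc, tt_mul_one]

end double

end Pool.Agent.NH65.CP
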