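import Pool.Agent.NH65.CP.Core

set_option autoImplicit false

/-!
The explicit ten-dimensional example: Kraus operators, and the contradiction.
-/

namespace Pool.Agent.NH65.CP

open Matrix

/-- `10 × 10` integer matrices. -/
abbrev MZ := Matrix (Fin 10) (Fin 10) ℤ

/-- The Kraus operators of the first map. -/
def L1 : Fin 3 → MZ :=
  ![Matrix.diagonal ![1, 0, 0, 1, 1, 0, 0, 0, 0, 1],
    Matrix.of fun i j => if (i = 0 ∧ j = 1) ∨ (i = 3 ∧ j = 5) ∨ (i = 4 ∧ j = 7) then 1 else 0,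
    Matrix.of fun i j => if (i = 0 ∧ j = 2) ∨ (i = 3 ∧ j = 6) ∨ (i = 4 ∧ j = 8) then 1 else 0]

/-- The Kraus operators of the second map. -/
def L2 : Fin 2 → MZ :=
  ![Matrix.diagonal ![1, 1, 1, 0, 1, 0, 0, 1, 1, 0],
    Matrix.of fun i j => if (i = 0 ∧ j = 3) ∨ (i = 1 ∧ j = 5) ∨ (i = 4 ∧ j = 9) then 1
      else if i = 2 ∧ j = 6 then -1 else 0]

/-- The Kraus operators of the third map. -/
def L3 : Fin 2 → MZ :=
  ![Matrix.diagonal ![1, 1, 1, 1, 0, 1, 1, 0, 0, 0],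
    Matrix.of fun i j => if (i = 0 ∧ j = 4) ∨ (i = 2 ∧ j = 7) ∨ (i = 1 ∧ j = 8) ∨ (i = 3 ∧ j = 9)
      then 1 else 0]

theorem L1_unital : ∑ k, (L1 k)ᵀ * L1 k = 1 := by decide +kernel
theorem L2_unital : ∑ k, (L2 k)ᵀ * L2 k = 1 := by decide +kernel
theorem L3_unital : ∑ k, (L3 k)ᵀ * L3 k = 1 := by decide +kernel

/-- Dual indices. -/
def Q1 : Fin 3 → Fin 10 := ![0, 1, 2]
/-- Dual indices. -/
def Q2 : Fin 2 → Fin 10 := ![0, 3]
/-- Dual indices. -/
def Q3 : Fin 2 → Fin 10 := ![0, 4]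

theorem L1_dual : ∀ k l, L1 k 0 (Q1 l) = if k = l then 1 else 0 := by decide +kernel
theorem L2_dual : ∀ k l, L2 k 0 (Q2 l) = if k = l then 1 else 0 := by decide +kernel
theorem L3_dual : ∀ k l, L3 k 0 (Q3 l) = if k = l then 1 else 0 := by decide +kernel

/-- sign and index bookkeeping for the exchange relations -/
theorem L12 : ∀ k l, L1 k * L2 l = (if k = 2 ∧ l = 1 then -1 else 1 : ℤ) • (L2 l * L1 k) := by
  decide +kernel

/-- The swap of the two nontrivial Kraus operators of the first map. -/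
def sw (l : Fin 2) : Fin 3 → Fin 3 := if l = 0 then id else ![0, 2, 1]

theorem L13 : ∀ k l, L1 k * L3 l = L3 l * L1 (sw l k) := by
  decide +kernel

theorem L23 : ∀ k l, L2 k * L3 l = L3 l * L2 k := by
  decide +kernel

theorem e12_5 : ∀ k l, (L1 k * L2 l) 0 5 = if k = 1 ∧ l = 1 then 1 else 0 := by decide +kernel
theorem e21_5 : ∀ l k, (L2 l * L1 k) 0 5 = if k = 1 ∧ l = 1 then 1 else 0 := by decide +kernel
theorem e12_6 : ∀ k l, (L1 k * L2 l) 0 6 = if k = 2 ∧ l = 1 then -1 else 0 := by decide +kernel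
theorem e21_6 : ∀ l k, (L2 l * L1 k) 0 6 = if k = 2 ∧ l = 1 then 1 else 0 := by decide +kernel
theorem e13_7 : ∀ k l, (L1 k * L3 l) 0 7 = if k = 2 ∧ l = 1 then 1 else 0 := by decide +kernel
theorem e31_7 : ∀ l k, (L3 l * L1 k) 0 7 = if k = 1 ∧ l = 1 then 1 else 0 := by decide +kernel
theorem e13_8 : ∀ k l, (L1 k * L3 l) 0 8 = if k = 1 ∧ l = 1 then 1 else 0 := by decide +kernel
theorem e31_8 : ∀ l k, (L3 l * L1 k) 0 8 = if k = 2 ∧ l = 1 then 1 else 0 := by decide +kernel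
theorem e23_9 : ∀ k l, (L2 k * L3 l) 0 9 = if k = 1 ∧ l = 1 then 1 else 0 := by decide +kernel
theorem e32_9 : ∀ l k, (L3 l * L2 k) 0 9 = if k = 1 ∧ l = 1 then 1 else 0 := by decide +kernel


/-- Cast to complex matrices. -/
noncomputable def toC : MZ →+* Matrix (Fin 10) (Fin 10) ℂ := (Int.castRingHom ℂ).mapMatrix

theorem toC_apply (M : MZ) (i j : Fin 10) : toC M i j = (M i j : ℂ) := rfl

theorem star_toC (M : MZ) : star (toC M) = toC Mᵀ := by
  ext i j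
  simp [Matrix.star_apply, toC_apply]

/-- The Kraus operators of the first map, as complex matrices. -/
noncomputable def S1 (k : Fin 3) : Matrix (Fin 10) (Fin 10) ℂ := toC (L1 k)
/-- The Kraus operators of the second map, as complex matrices. -/
noncomputable def S2 (k : Fin 2) : Matrix (Fin 10) (Fin 10) ℂ := toC (L2 k)
/-- The Kraus operators of the third map, as complex matrices. -/
noncomputable def S3 (k : Fin 2) : Matrix (Fin 10) (Fin 10) ℂ := toC (L3 k)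

theorem S1_unital : ∑ k, star (S1 k) * S1 k = 1 := by
  simp only [S1, star_toC, ← map_mul, ← map_sum, L1_unital, map_one]
theorem S2_unital : ∑ k, star (S2 k) * S2 k = 1 := by
  simp only [S2, star_toC, ← map_mul, ← map_sum, L2_unital, map_one]
theorem S3_unital : ∑ k, star (S3 k) * S3 k = 1 := by
  simp only [S3, star_toC, ← map_mul, ← map_sum, L3_unital, map_one]

theorem S1_dual (k l : Fin 3) : S1 k 0 (Q1 l) = if k = l then 1 else 0 := by
  simp only [S1, toC_apply, L1_dual]; split_ifs <;> simp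
theorem S2_dual (k l : Fin 2) : S2 k 0 (Q2 l) = if k = l then 1 else 0 := by
  simp only [S2, toC_apply, L2_dual]; split_ifs <;> simp
theorem S3_dual (k l : Fin 2) : S3 k 0 (Q3 l) = if k = l then 1 else 0 := by
  simp only [S3, toC_apply, L3_dual]; split_ifs <;> simp

theorem S12 (k : Fin 3) (l : Fin 2) :
    S1 k * S2 l = (if k = 2 ∧ l = 1 then -1 else 1 : ℂ) • (S2 l * S1 k) := by
  simp only [S1, S2, ← map_mul, L12]
  split_ifs <;> simp

theorem S13 (k : Fin 3) (l : Fin 2) : S1 k * S3 l = S3 l * S1 (sw l k) := by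
  simp only [S1, S3, ← map_mul, L13]

theorem S23 (k l : Fin 2) : S2 k * S3 l = S3 l * S2 k := by
  simp only [S2, S3, ← map_mul, L23]

theorem f12_5 (k : Fin 3) (l : Fin 2) : (S1 k * S2 l) 0 5 = if k = 1 ∧ l = 1 then 1 else 0 := by
  simp only [S1, S2, ← map_mul, toC_apply, e12_5]; split_ifs <;> simp
theorem f21_5 (l : Fin 2) (k : Fin 3) : (S2 l * S1 k) 0 5 = if k = 1 ∧ l = 1 then 1 else 0 := by
  simp only [S1, S2, ← map_mul, toC_apply, e21_5]; split_ifs <;> simp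
theorem f12_6 (k : Fin 3) (l : Fin 2) : (S1 k * S2 l) 0 6 = if k = 2 ∧ l = 1 then -1 else 0 := by
  simp only [S1, S2, ← map_mul, toC_apply, e12_6]; split_ifs <;> simp
theorem f21_6 (l : Fin 2) (k : Fin 3) : (S2 l * S1 k) 0 6 = if k = 2 ∧ l = 1 then 1 else 0 := by
  simp only [S1, S2, ← map_mul, toC_apply, e21_6]; split_ifs <;> simp
theorem f13_7 (k : Fin 3) (l : Fin 2) : (S1 k * S3 l) 0 7 = if k = 2 ∧ l = 1 then 1 else 0 := by
  simp only [S1, S3, ← map_mul, toC_apply, e13_7]; split_ifs <;> simp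
theorem f31_7 (l : Fin 2) (k : Fin 3) : (S3 l * S1 k) 0 7 = if k = 1 ∧ l = 1 then 1 else 0 := by
  simp only [S1, S3, ← map_mul, toC_apply, e31_7]; split_ifs <;> simp
theorem f13_8 (k : Fin 3) (l : Fin 2) : (S1 k * S3 l) 0 8 = if k = 1 ∧ l = 1 then 1 else 0 := by
  simp only [S1, S3, ← map_mul, toC_apply, e13_8]; split_ifs <;> simp
theorem f31_8 (l : Fin 2) (k : Fin 3) : (S3 l * S1 k) 0 8 = if k = 2 ∧ l = 1 then 1 else 0 := by
  simp only [S1, S3, ← map_mul, toC_apply, e31_8]; split_ifs <;> simp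
theorem f23_9 (k l : Fin 2) : (S2 k * S3 l) 0 9 = if k = 1 ∧ l = 1 then 1 else 0 := by
  simp only [S2, S3, ← map_mul, toC_apply, e23_9]; split_ifs <;> simp
theorem f32_9 (l k : Fin 2) : (S3 l * S2 k) 0 9 = if k = 1 ∧ l = 1 then 1 else 0 := by
  simp only [S2, S3, ← map_mul, toC_apply, e32_9]; split_ifs <;> simp

section contradiction

variable {B : Type*} [Ring B] [StarRing B] [Algebra ℂ B]
  (φ : Matrix (Fin 10) (Fin 10) ℂ →⋆ₙₐ[ℂ] B) (θ₁ θ₂ θ₃ : B →⋆ₙₐ[ℂ] B)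

/-- A single term survives in a double sum. -/
theorem single₂ {κ κ' : Type*} [Fintype κ] [Fintype κ'] [DecidableEq κ] [DecidableEq κ']
    (c : ℂ) (k₀ : κ) (l₀ : κ') (M : κ → κ' → ℂ)
    (hM : ∀ k l, M k l = if k = k₀ ∧ l = l₀ then c else 0) (F : κ → κ' → B) :
    ∑ k, ∑ l, M k l • F k l = c • F k₀ l₀ := by
  rw [Finset.sum_eq_single k₀, Finset.sum_eq_single l₀]
  · simp [hM]
  · intro l _ hl; simp [hM, hl]
  · simp
  · intro k _ hk; simp [hM, hk]
  · simp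

theorem no_projection (hprop : ∀ x : B, star x * x = 0 → x = 0)
    (h1 : ∀ a, φ 1 * θ₁ (φ a) * φ 1 = φ (∑ k, star (S1 k) * a * S1 k))
    (h2 : ∀ a, φ 1 * θ₂ (φ a) * φ 1 = φ (∑ k, star (S2 k) * a * S2 k))
    (h3 : ∀ a, φ 1 * θ₃ (φ a) * φ 1 = φ (∑ k, star (S3 k) * a * S3 k))
    (c12 : ∀ b, θ₁ (θ₂ b) = θ₂ (θ₁ b)) (c13 : ∀ b, θ₁ (θ₃ b) = θ₃ (θ₁ b))
    (c23 : ∀ b, θ₂ (θ₃ b) = θ₃ (θ₂ b)) : φ 1 = 0 := by
  set t11 := tt φ θ₁ 0 Q1 1 with ht11
  set t12 := tt φ θ₁ 0 Q1 2 with ht12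
  set t21 := tt φ θ₂ 0 Q2 1 with ht21
  set t31 := tt φ θ₃ 0 Q3 1 with ht31
  -- exchange relations
  have x5 : θ₂ t11 * t21 = θ₁ t21 * t11 := by
    have a := key₂ φ θ₁ θ₂ S1 S2 0 Q1 Q2 hprop h1 S1_dual h2 S2_unital S2_dual 5
    have b := key₂ φ θ₂ θ₁ S2 S1 0 Q2 Q1 hprop h2 S2_dual h1 S1_unital S1_dual 5
    rw [single₂ 1 1 1 _ f12_5] at a
    rw [single₂ 1 1 1 _ (fun k l => by rw [f21_5]; simp only [and_comm])] at b
    simp only [c12] at b
    rw [a] at b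
    simpa using b
  have x6 : -(θ₂ t12 * t21) = θ₁ t21 * t12 := by
    have a := key₂ φ θ₁ θ₂ S1 S2 0 Q1 Q2 hprop h1 S1_dual h2 S2_unital S2_dual 6
    have b := key₂ φ θ₂ θ₁ S2 S1 0 Q2 Q1 hprop h2 S2_dual h1 S1_unital S1_dual 6
    rw [single₂ (-1) 2 1 _ f12_6] at a
    rw [single₂ 1 1 2 _ (fun k l => by rw [f21_6]; simp only [and_comm])] at b
    simp only [c12] at b
    rw [a] at b
    simpa using b
  have x7 : θ₃ t12 * t31 = θ₁ t31 * t11 := by
    have a := key₂ φ θ₁ θ₃ S1 S3 0 Q1 Q3 hprop h1 S1_dual h3 S3_unital S3_dual 7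
    have b := key₂ φ θ₃ θ₁ S3 S1 0 Q3 Q1 hprop h3 S3_dual h1 S1_unital S1_dual 7
    rw [single₂ 1 2 1 _ f13_7] at a
    rw [single₂ 1 1 1 _ (fun k l => by rw [f31_7]; simp only [and_comm])] at b
    simp only [c13] at b
    rw [a] at b
    simpa using b
  have x8 : θ₃ t11 * t31 = θ₁ t31 * t12 := by
    have a := key₂ φ θ₁ θ₃ S1 S3 0 Q1 Q3 hprop h1 S1_dual h3 S3_unital S3_dual 8
    have b := key₂ φ θ₃ θ₁ S3 S1 0 Q3 Q1 hprop h3 S3_dual h1 S1_unital S1_dual 8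
    rw [single₂ 1 1 1 _ f13_8] at a
    rw [single₂ 1 1 2 _ (fun k l => by rw [f31_8]; simp only [and_comm])] at b
    simp only [c13] at b
    rw [a] at b
    simpa using b
  have x9 : θ₃ t21 * t31 = θ₂ t31 * t21 := by
    have a := key₂ φ θ₂ θ₃ S2 S3 0 Q2 Q3 hprop h2 S2_dual h3 S3_unital S3_dual 9
    have b := key₂ φ θ₃ θ₂ S3 S2 0 Q3 Q2 hprop h3 S3_dual h2 S2_unital S2_dual 9
    rw [single₂ 1 1 1 _ f23_9] at a
    rw [single₂ 1 1 1 _ (fun k l => by rw [f32_9]; simp only [and_comm])] at b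
    simp only [c23] at b
    rw [a] at b
    simpa using b
  set G := θ₂ t31 * t21 with hG
  -- two routes
  have routeA : θ₂ (θ₃ t11) * θ₃ t21 * t31 = θ₁ G * t12 := by
    calc θ₂ (θ₃ t11) * θ₃ t21 * t31 = θ₃ (θ₂ t11 * t21) * t31 := by rw [c23, map_mul]
      _ = θ₃ (θ₁ t21 * t11) * t31 := by rw [x5]
      _ = θ₁ (θ₃ t21) * (θ₃ t11 * t31) := by rw [map_mul, ← c13, mul_assoc]
      _ = θ₁ (θ₃ t21) * (θ₁ t31 * t12) := by rw [x8]
      _ = θ₁ (θ₃ t21 * t31) * t12 := by rw [map_mul, mul_assoc]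
      _ = θ₁ G * t12 := by rw [x9]
  have routeB : θ₂ (θ₃ t11) * θ₃ t21 * t31 = -(θ₁ G * t12) := by
    calc θ₂ (θ₃ t11) * θ₃ t21 * t31 = θ₂ (θ₃ t11) * (θ₂ t31 * t21) := by rw [mul_assoc, x9]
      _ = θ₂ (θ₃ t11 * t31) * t21 := by rw [map_mul, mul_assoc]
      _ = θ₂ (θ₁ t31 * t12) * t21 := by rw [x8]
      _ = θ₁ (θ₂ t31) * (θ₂ t12 * t21) := by rw [map_mul, ← c12, mul_assoc]
      _ = θ₁ (θ₂ t31) * -(θ₁ t21 * t12) := by rw [← x6, neg_neg]
      _ = -(θ₁ G * t12) := by rw [hG, map_mul, mul_neg, mul_assoc]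
  have hz : θ₁ G * t12 = 0 := by
    have h : θ₁ G * t12 = -(θ₁ G * t12) := routeA.symm.trans routeB
    have h2 : (2 : ℂ) • (θ₁ G * t12) = 0 := by
      rw [two_smul]
      nth_rewrite 2 [h]
      simp
    have := congrArg (fun x => (2⁻¹ : ℂ) • x) h2
    simpa using this
  have p21 : star t21 * t21 = φ 1 := by
    have := star_tt_mul_tt φ θ₂ S2 0 Q2 h2 S2_dual 1 1
    simpa using this
  have p31 : star t31 * t31 = φ 1 := by
    have := star_tt_mul_tt φ θ₃ S3 0 Q3 h3 S3_dual 1 1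
    simpa using this
  have p12 : star t12 * t12 = φ 1 := by
    have := star_tt_mul_tt φ θ₁ S1 0 Q1 h1 S1_dual 2 2
    simpa using this
  have hGG : star G * G = φ 1 := by
    calc star G * G = star t21 * (star (θ₂ t31) * θ₂ t31) * t21 := by
          rw [hG, star_mul]; simp only [mul_assoc]
      _ = star t21 * θ₂ (φ 1) * t21 := by rw [← map_star, ← map_mul, p31]
      _ = star t21 * (θ₂ (φ 1) * t21) := by rw [mul_assoc]
      _ = φ 1 := by rw [ht21, theta_one_tt, ← ht21, p21]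
  calc φ 1 = star t12 * t12 := p12.symm
    _ = star t12 * (θ₁ (φ 1) * t12) := by rw [ht12, theta_one_tt]
    _ = star t12 * (θ₁ (star G * G) * t12) := by rw [hGG]
    _ = star (θ₁ G * t12) * (θ₁ G * t12) := by
        rw [map_mul, map_star, star_mul]; simp only [mul_assoc]
    _ = 0 := by rw [hz]; simp

end contradiction

end Pool.Agent.NH65.CP
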